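import Pool.Agent.W25.UN.Stm

/-!
# UN-PS1: presieved first sum, from the fundamental lemma with residue classes
-/

set_option autoImplicit false
set_option relaxedAutoImplicit false

namespace Pool.Agent.W991.UN

open Finset
open Pool.Agent.H410R2 Pool.Agent.W25.UN

theorem crt2 {m₁ m₂ : ℕ} (h : m₁.Coprime m₂) (r₁ r₂ : ℕ) :
    ∃ r, ∀ n, (n ≡ r₁ [MOD m₁] ∧ n ≡ r₂ [MOD m₂]) ↔ n ≡ r [MOD m₁ * m₂] := by
  obtain ⟨r, h1, h2⟩ := Nat.chineseRemainder h r₁ r₂
  refine ⟨r, fun n => ?_⟩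
  rw [← Nat.modEq_and_modEq_iff_modEq_mul h]
  constructor
  · rintro ⟨a, b⟩; exact ⟨a.trans h1.symm, b.trans h2.symm⟩
  · rintro ⟨a, b⟩; exact ⟨a.trans h1, b.trans h2⟩

theorem crtT (T : Finset ℕ) (hT : ∀ p ∈ T, p.Prime) (cc : ℕ → ℕ) (hcc : ∀ p ∈ T, cc p < p) :
    ∃ r, ∀ n, (∀ p ∈ T, n % p = cc p) ↔ n ≡ r [MOD ∏ p ∈ T, p] := by
  classical
  induction T using Finset.induction_on with
  | empty => exact ⟨0, fun n => by simp [Nat.modEq_one]⟩
  | insert q T hq ih =>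
    obtain ⟨r, hr⟩ := ih (fun p hp => hT p (mem_insert_of_mem hp)) (fun p hp => hcc p (mem_insert_of_mem hp))
    have hcop : q.Coprime (∏ p ∈ T, p) := Nat.Coprime.prod_right fun p hp =>
      (Nat.coprime_primes (hT q (mem_insert_self _ _)) (hT p (mem_insert_of_mem hp))).2 (fun h => hq (h ▸ hp))
    obtain ⟨r', hr'⟩ := crt2 hcop (cc q) r
    refine ⟨r', fun n => ?_⟩
    rw [Finset.prod_insert hq, ← hr', ← hr]
    constructor
    · intro h
      refine ⟨?_, fun p hp => h p (mem_insert_of_mem hp)⟩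
      unfold Nat.ModEq
      rw [h q (mem_insert_self _ _), Nat.mod_eq_of_lt (hcc q (mem_insert_self _ _))]
    · rintro ⟨h1, h2⟩ p hp
      rcases mem_insert.1 hp with rfl | hp
      · unfold Nat.ModEq at h1
        rw [h1, Nat.mod_eq_of_lt (hcc p (mem_insert_self _ _))]
      · exact h2 p hp

theorem main (hF : FLA) (hS : S1Gen) : PS1 := by
  classical
  intro κ
  obtain ⟨C1, hC1, hF⟩ := hF κ
  refine ⟨max C1 κ, le_max_of_le_left hC1, ?_⟩
  intro ι J _ _ pr L b Jj z0 P Om W v hSD hb hz hP hOm hW hPW hpr c S wt K Dv hwt hK hDv heq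
  have hb1 : C1 ≤ b := le_trans (le_max_left _ _) hb
  have hz1 : C1 ≤ z0 := le_trans (le_max_left _ _) hz
  have hz2 : κ ≤ z0 := le_trans (le_max_right _ _) hz
  obtain ⟨hQ0, hQ1, hS1⟩ := hS ι J pr L hSD c
  have hE0n : 0 ≤ Dv * (∑ σ, |c σ| * mulc pr (fun p => (p : ℝ) + 1) σ) ^ 2 := by positivity
  set E0 : ℝ := Dv * (∑ σ, |c σ| * mulc pr (fun p => (p : ℝ) + 1) σ) ^ 2 with hE0
  have hWr : (0:ℝ) < W := by exact_mod_cast hW
  have hg : ∀ p ∈ P, 0 ≤ (fun p : ℕ => 1 / (p:ℝ)) p ∧ (fun p : ℕ => 1 / (p:ℝ)) p ≤ 1 / ((p:ℝ) - 1) := by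
    intro p hp
    have h2 : (2:ℝ) ≤ p := by exact_mod_cast (hP p hp).1.two_le
    refine ⟨by positivity, ?_⟩
    exact one_div_le_one_div_of_le (by linarith) (by linarith)
  have hT : ∀ T ⊆ P, ∏ p ∈ T, p ≤ (2 ^ 2 ^ Jj) ^ (C1 * b) → ∀ cc : ℕ → ℕ, (∀ p ∈ T, cc p ∈ Om p) →
      |∑ n ∈ (S.filter (fun n => n ≡ v [MOD W])).filter (fun n => ∀ p ∈ T, n % p = cc p),
        (fun n => wt n * (∑ σ, c σ * hN L pr σ n) ^ 2) n -
        K / W * Q1f pr c * ∏ p ∈ T, (fun p : ℕ => 1 / (p:ℝ)) p| ≤ (fun _ => E0) (∏ p ∈ T, p) := by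
    intro T hTP _ cc hcc
    have hTp : ∀ p ∈ T, p.Prime := fun p hp => (hP p (hTP hp)).1
    obtain ⟨rT, hrT⟩ := crtT T hTp cc (fun p hp => (hOm p (hTP hp)).2 _ (hcc p hp))
    have hTW : (∏ p ∈ T, p).Coprime W := Nat.Coprime.prod_left fun p hp => hPW p (hTP hp)
    obtain ⟨r2, hr2⟩ := crt2 hTW.symm v rT
    have hTpos : 0 < ∏ p ∈ T, p := Finset.prod_pos fun p hp => (hTp p hp).pos
    have h1 := hS1 ((S.filter (fun n => n ≡ v [MOD W])).filter (fun n => ∀ p ∈ T, n % p = cc p)) wt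
      (K / W / (∏ p ∈ T, p : ℕ)) Dv hDv (by
        intro q hq hOv r
        have hqpos : 0 < q := Nat.pos_of_ne_zero hq.ne_zero
        have hcop : (W * ∏ p ∈ T, p).Coprime q := by
          refine Nat.Coprime.mul_left ?_ ?_
          · refine Nat.Coprime.symm (Nat.coprime_of_dvd fun p hp hpq hpW => ?_)
            obtain ⟨t, ht⟩ := hOv p hp hpq
            have := (hpr t).2
            rw [ht] at this
            exact hp.one_lt.ne' (Nat.Coprime.eq_one_of_dvd this hpW)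
          · refine Nat.Coprime.prod_left fun p hp => ?_
            rw [Nat.Prime.coprime_iff_not_dvd (hTp p hp)]
            intro hpq
            obtain ⟨t, ht⟩ := hOv p (hTp p hp) hpq
            exact (hpr t).1 (ht ▸ hTP hp)
        obtain ⟨r3, hr3⟩ := crt2 hcop r2 r
        have h2 := heq (W * (∏ p ∈ T, p) * q) (Nat.mul_pos (Nat.mul_pos hW hTpos) hqpos) r3
        have e1 : ((S.filter (fun n => n ≡ v [MOD W])).filter (fun n => ∀ p ∈ T, n % p = cc p)).filter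
            (fun n => n ≡ r [MOD q]) = S.filter (fun n => n ≡ r3 [MOD W * (∏ p ∈ T, p) * q]) := by
          ext n
          simp only [Finset.mem_filter]
          rw [← hr3, ← hr2, ← hrT]
          tauto
        rw [e1]
        have e2 : K / W / ((∏ p ∈ T, p : ℕ) : ℝ) / q = K / ((W * (∏ p ∈ T, p) * q : ℕ) : ℝ) := by
          rw [Nat.cast_mul, Nat.cast_mul, div_div, div_div, mul_assoc]
        rw [e2]
        exact h2)
    have e3 : K / W * Q1f pr c * ∏ p ∈ T, (fun p : ℕ => 1 / (p:ℝ)) p =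
        K / W / ((∏ p ∈ T, p : ℕ) : ℝ) * Q1f pr c := by
      have : ∏ p ∈ T, (fun p : ℕ => 1 / (p:ℝ)) p = 1 / ((∏ p ∈ T, p : ℕ) : ℝ) := by
        push_cast
        simp only [one_div, Finset.prod_inv_distrib]
      rw [this]; ring
    rw [e3]
    exact h1
  have key := hF b Jj z0 P (fun p => 1 / (p:ℝ)) Om hb1 hz1 hP (fun p hp => (hOm p hp).1) hg
    (S.filter (fun n => n ≡ v [MOD W])) (fun n => wt n * (∑ σ, c σ * hN L pr σ n) ^ 2)
    (K / W * Q1f pr c) (fun _ => E0)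
    (fun n hn => mul_nonneg (hwt n (Finset.mem_filter.1 hn).1) (sq_nonneg _))
    (mul_nonneg (by positivity) hQ0) (fun _ => hE0n) hT
  -- the error term
  set Y : ℕ := (2 ^ 2 ^ Jj) ^ (C1 * b) with hY
  have hnum : ∑ T ∈ P.powerset.filter (fun T : Finset ℕ => ∏ p ∈ T, p ≤ Y), (κ : ℝ) ^ T.card * E0 ≤
      (Y:ℝ) * Y * E0 := by
    have h1 : ∀ T ∈ P.powerset.filter (fun T : Finset ℕ => ∏ p ∈ T, p ≤ Y), (κ : ℝ) ^ T.card * E0 ≤ Y * E0 := by
      intro T hT
      rw [Finset.mem_filter, Finset.mem_powerset] at hT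
      refine mul_le_mul_of_nonneg_right ?_ hE0n
      have h2 : κ ^ T.card ≤ ∏ p ∈ T, p := by
        rw [← Finset.prod_const]
        exact Finset.prod_le_prod (fun _ _ => Nat.zero_le _)
          (fun p hp => by have := (hP p (hT.1 hp)).2.1; omega)
      exact_mod_cast le_trans h2 hT.2
    refine le_trans (Finset.sum_le_card_nsmul _ _ _ h1) ?_
    rw [nsmul_eq_mul, mul_assoc]
    refine mul_le_mul_of_nonneg_right ?_ (by positivity)
    have h3 : (P.powerset.filter (fun T : Finset ℕ => ∏ p ∈ T, p ≤ Y)).card ≤ (Finset.Icc 1 Y).card := by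
      refine Finset.card_le_card_of_injOn (fun T => ∏ p ∈ T, p) ?_ ?_
      · intro T hT
        have hT' := Finset.mem_filter.1 (Finset.mem_coe.1 hT)
        rw [Finset.mem_powerset] at hT'
        refine Finset.mem_coe.2 (Finset.mem_Icc.2 ⟨?_, hT'.2⟩)
        exact Finset.prod_pos fun p hp => (hP p (hT'.1 hp)).1.pos
      · intro T hT T' hT' h
        have hT1 := Finset.mem_filter.1 (Finset.mem_coe.1 hT)
        have hT2 := Finset.mem_filter.1 (Finset.mem_coe.1 hT')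
        rw [Finset.mem_powerset] at hT1 hT2
        have h4 := Nat.primeFactors_prod (s := T) fun p hp => (hP p (hT1.1 hp)).1
        have h5 := Nat.primeFactors_prod (s := T') fun p hp => (hP p (hT2.1 hp)).1
        simp only at h
        rw [← h4, ← h5, h]
    rw [Nat.card_Icc] at h3
    exact_mod_cast h3
  have hYY : (Y:ℝ) * Y ≤ ((2 : ℝ) ^ 2 ^ Jj) ^ (2 * (max C1 κ * b)) := by
    have h1 : (Y:ℝ) * Y = ((2 : ℝ) ^ 2 ^ Jj) ^ (2 * (C1 * b)) := by
      rw [hY]; push_cast; rw [two_mul (C1 * b), pow_add]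
    rw [h1]
    refine pow_le_pow_right₀ (one_le_pow₀ (by norm_num)) ?_
    have := Nat.mul_le_mul_right b (le_max_left C1 κ)
    omega
  have e5 : ∀ p ∈ P, (1 - ((Om p).card : ℝ) * (1 / (p:ℝ))) = 1 - ((Om p).card : ℝ) / p := fun p _ => by
    rw [mul_one_div]
  simp only [Finset.filter_filter] at key
  rw [Finset.prod_congr rfl e5] at key
  refine le_trans key ?_
  refine add_le_add le_rfl ?_
  have hJ : (0:ℝ) ≤ (Jj:ℝ) + 2 := by positivity
  calc ((Jj : ℝ) + 2) * ∑ T ∈ P.powerset.filter (fun T : Finset ℕ => ∏ p ∈ T, p ≤ Y), (κ : ℝ) ^ T.card * E0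
      ≤ ((Jj : ℝ) + 2) * ((Y:ℝ) * Y * E0) := mul_le_mul_of_nonneg_left hnum hJ
    _ ≤ ((Jj : ℝ) + 2) * (((2 : ℝ) ^ 2 ^ Jj) ^ (2 * (max C1 κ * b)) * E0) :=
        mul_le_mul_of_nonneg_left (mul_le_mul_of_nonneg_right hYY hE0n) hJ
    _ = _ := by ring

end Pool.Agent.W991.UN
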