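import Pool.Agent.W648.UN.Stm

/-!
# Project UN, part UN-ABEL: the Abel kernel and Abel injectivity
-/

set_option autoImplicit false

open MeasureTheory Set Filter Topology

noncomputable section

namespace Pool.Agent.W991.UN

open Pool.Agent.W648.UN

/-! ### the kernel -/

theorem exp_lt_one_of_pos {η : ℝ} (h : 0 < η) : Real.exp (-2 * η) < 1 := by
  rw [Real.exp_lt_one_iff] 
  linarith

theorem ak_nonneg (η : ℝ) : 0 ≤ ak η := by
  unfold ak
  positivity

theorem ak_hasDeriv (η : ℝ) (h : η ∈ Ioi (0 : ℝ)) :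
    HasDerivAt (fun η : ℝ => 2 * Real.sqrt (1 - Real.exp (-2 * η))) (ak η) η := by
  have h1 : 0 < 1 - Real.exp (-2 * η) := by
    have := exp_lt_one_of_pos (mem_Ioi.mp h)
    linarith
  have h2 : HasDerivAt (fun η : ℝ => -2 * η) (-2 * 1) η := (hasDerivAt_id η).const_mul (-2)
  have h3 := h2.exp
  have h4 : HasDerivAt (fun η : ℝ => 1 - Real.exp (-2 * η))
      (-(Real.exp (-2 * η) * (-2 * 1))) η := by
    simpa using h3.const_sub 1
  have h5 := (h4.sqrt h1.ne').const_mul 2
  refine h5.congr_deriv ?_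
  unfold ak
  field_simp

theorem ak_cont : ContinuousWithinAt (fun η : ℝ => 2 * Real.sqrt (1 - Real.exp (-2 * η)))
    (Ici 0) 0 := by
  apply Continuous.continuousWithinAt
  fun_prop

theorem ak_lim : Tendsto (fun η : ℝ => 2 * Real.sqrt (1 - Real.exp (-2 * η))) atTop (𝓝 2) := by
  have h1 : Tendsto (fun η : ℝ => Real.exp (-2 * η)) atTop (𝓝 0) := by
    apply Real.tendsto_exp_atBot.comp
    exact tendsto_id.const_mul_atTop_of_neg (by norm_num)
  have h2 : Tendsto (fun η : ℝ => 2 * Real.sqrt (1 - Real.exp (-2 * η))) atTop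
      (𝓝 (2 * Real.sqrt (1 - 0))) :=
    ((tendsto_const_nhds.sub h1).sqrt).const_mul 2
  simpa using h2

theorem ak_th : S_AK := by
  refine ⟨integrableOn_Ioi_deriv_of_nonneg ak_cont ak_hasDeriv (fun η _ => ak_nonneg η) ak_lim,
    ?_, fun η _ => ak_nonneg η⟩
  rw [integral_Ioi_of_hasDerivAt_of_nonneg ak_cont ak_hasDeriv (fun η _ => ak_nonneg η) ak_lim]
  simp

/-! ### the Abel integral -/

/-- the kernel -/
def kap (x s t : ℝ) : ℝ :=
  2 * Real.exp (2 * t) /
    Real.sqrt ((Real.exp (2 * x) - Real.exp (2 * t)) * (Real.exp (2 * t) - Real.exp (2 * s)))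

theorem kap_nonneg (x s t : ℝ) : 0 ≤ kap x s t := by
  unfold kap
  positivity

theorem kap_hasDeriv (x s t : ℝ) (h : t ∈ Ioo s x) :
    HasDerivAt (fun t : ℝ => Real.arcsin ((2 * Real.exp (2 * t) - Real.exp (2 * x) -
      Real.exp (2 * s)) / (Real.exp (2 * x) - Real.exp (2 * s)))) (kap x s t) t := by
  have h1 : Real.exp (2 * s) < Real.exp (2 * t) := Real.exp_lt_exp.mpr (by linarith [h.1])
  have h2 : Real.exp (2 * t) < Real.exp (2 * x) := Real.exp_lt_exp.mpr (by linarith [h.2])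
  have hexp : HasDerivAt (fun t : ℝ => Real.exp (2 * t)) (Real.exp (2 * t) * (2 * 1)) t :=
    ((hasDerivAt_id t).const_mul 2).exp
  set S := Real.exp (2 * s) with hS
  set X := Real.exp (2 * x) with hX
  set Y := Real.exp (2 * t) with hY
  have hXS : 0 < X - S := by linarith
  have hz : HasDerivAt (fun t : ℝ => (2 * Real.exp (2 * t) - X - S) / (X - S))
      (2 * (Y * (2 * 1)) / (X - S)) t :=
    (((hexp.const_mul 2).sub_const X).sub_const S).div_const (X - S)
  have hlt : (2 * Y - X - S) / (X - S) < 1 := by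
    rw [div_lt_one hXS]
    linarith
  have hgt : -1 < (2 * Y - X - S) / (X - S) := by
    rw [lt_div_iff₀ hXS]
    linarith
  have ha := (Real.hasDerivAt_arcsin (x := (2 * Y - X - S) / (X - S)) hgt.ne' hlt.ne).comp t hz
  refine ha.congr_deriv ?_
  have h3 : 1 - ((2 * Y - X - S) / (X - S)) ^ 2 = 4 * ((X - Y) * (Y - S)) / (X - S) ^ 2 := by
    field_simp
    ring
  have h4 : Real.sqrt (1 - ((2 * Y - X - S) / (X - S)) ^ 2) =
      2 * Real.sqrt ((X - Y) * (Y - S)) / (X - S) := by
    rw [h3, Real.sqrt_div' _ (by positivity), Real.sqrt_sq hXS.le,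
      Real.sqrt_mul (by norm_num : (0 : ℝ) ≤ 4)]
    have : Real.sqrt 4 = 2 := by
      rw [show (4 : ℝ) = 2 ^ 2 by norm_num, Real.sqrt_sq (by norm_num)]
    rw [this]
  have h5 : 0 < Real.sqrt ((X - Y) * (Y - S)) :=
    Real.sqrt_pos.mpr (mul_pos (by linarith) (by linarith))
  rw [h4]
  unfold kap
  rw [← hX, ← hY, ← hS]
  field_simp

theorem kap_cont (x s : ℝ) : ContinuousOn (fun t : ℝ => Real.arcsin ((2 * Real.exp (2 * t) -
    Real.exp (2 * x) - Real.exp (2 * s)) / (Real.exp (2 * x) - Real.exp (2 * s)))) (Icc s x) := by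
  apply Continuous.continuousOn
  apply Real.continuous_arcsin.comp
  fun_prop

theorem kap_int (x s : ℝ) : IntegrableOn (kap x s) (Ioc s x) :=
  intervalIntegral.integrableOn_deriv_of_nonneg (kap_cont x s) (kap_hasDeriv x s)
    (fun t _ => kap_nonneg x s t)

theorem kap_integral (x s : ℝ) (h : s < x) : ∫ t in Ioc s x, kap x s t = Real.pi := by
  have h1 : Real.exp (2 * s) < Real.exp (2 * x) := Real.exp_lt_exp.mpr (by linarith)
  have h2 : 0 < Real.exp (2 * x) - Real.exp (2 * s) := by linarith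
  rw [← intervalIntegral.integral_of_le h.le,
    intervalIntegral.integral_eq_sub_of_hasDerivAt_of_le h.le (kap_cont x s) (kap_hasDeriv x s)
      ((intervalIntegrable_iff_integrableOn_Ioc_of_le h.le).mpr (kap_int x s))]
  have e1 : (2 * Real.exp (2 * x) - Real.exp (2 * x) - Real.exp (2 * s)) /
      (Real.exp (2 * x) - Real.exp (2 * s)) = 1 := by
    rw [div_eq_one_iff_eq h2.ne']
    ring
  have e2 : (2 * Real.exp (2 * s) - Real.exp (2 * x) - Real.exp (2 * s)) /
      (Real.exp (2 * x) - Real.exp (2 * s)) = -1 := by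
    rw [div_eq_iff h2.ne']
    ring
  simp only [e1, e2, Real.arcsin_one, Real.arcsin_neg_one]
  ring

/-- relation of the kernels -/
theorem kap_ak (x s t : ℝ) (hst : s < t) (htx : t < x) :
    2 * Real.exp (2 * t) / Real.sqrt (Real.exp (2 * x) - Real.exp (2 * t)) *
      (Real.exp t * ak (t - s)) = kap x s t * (2 * Real.exp (2 * s)) := by
  have h1 : Real.exp (2 * s) < Real.exp (2 * t) := Real.exp_lt_exp.mpr (by linarith)
  have h2 : Real.exp (2 * t) < Real.exp (2 * x) := Real.exp_lt_exp.mpr (by linarith)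
  have h3 : 1 - Real.exp (-2 * (t - s)) = (Real.exp (2 * t) - Real.exp (2 * s)) /
      (Real.exp t) ^ 2 := by
    rw [eq_div_iff (by positivity), sub_mul, one_mul, ← Real.exp_nat_mul, ← Real.exp_add]
    congr 2
    ring
  have h4 : Real.sqrt (1 - Real.exp (-2 * (t - s))) =
      Real.sqrt (Real.exp (2 * t) - Real.exp (2 * s)) / Real.exp t := by
    rw [h3, Real.sqrt_div' _ (by positivity), Real.sqrt_sq (Real.exp_pos t).le]
  have h5 : 0 < Real.sqrt (Real.exp (2 * t) - Real.exp (2 * s)) :=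
    Real.sqrt_pos.mpr (by linarith)
  have h6 : 0 < Real.sqrt (Real.exp (2 * x) - Real.exp (2 * t)) :=
    Real.sqrt_pos.mpr (by linarith)
  have h7 : Real.exp (-2 * (t - s)) = Real.exp (2 * s) / (Real.exp t) ^ 2 := by
    rw [eq_div_iff (by positivity), ← Real.exp_nat_mul, ← Real.exp_add]
    congr 1
    push_cast
    ring
  unfold ak kap
  rw [h4, h7, Real.sqrt_mul (by linarith)]
  have h8 := Real.exp_pos t
  field_simp

/-! ### the transform as an integral over the line -/

theorem JJ_eq (g : ℝ → ℂ) (t : ℝ) :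
    JJ g t = ∫ s, (if s < t then (ak (t - s) : ℂ) * g s else 0) := by
  unfold JJ
  rw [← integral_indicator measurableSet_Ioi,
    ← integral_sub_left_eq_self (fun s => if s < t then (ak (t - s) : ℂ) * g s else 0) volume t]
  congr 1
  ext η
  by_cases h : 0 < η
  · rw [indicator_of_mem (mem_Ioi.mpr h), if_pos (by linarith), sub_sub_cancel]
  · rw [indicator_of_notMem (by simpa using h), if_neg (by linarith [not_lt.mp h])]

/-- the integrand of the double integral -/
def Psi (g : ℝ → ℂ) (x t s : ℝ) : ℂ :=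
  if s < t then ((2 * Real.exp (2 * t) / Real.sqrt (Real.exp (2 * x) - Real.exp (2 * t)) *
    Real.exp t : ℝ) : ℂ) * ((ak (t - s) : ℂ) * g s) else 0

theorem Psi_left (g : ℝ → ℂ) (hg0 : ∀ t ≤ 0, g t = 0) (x t : ℝ) (htx : t < x) :
    ∫ s in Ioo (0 : ℝ) x, Psi g x t s =
      ((2 * Real.exp (2 * t) / Real.sqrt (Real.exp (2 * x) - Real.exp (2 * t)) *
        Real.exp t : ℝ) : ℂ) * JJ g t := by
  rw [JJ_eq, ← integral_const_mul, ← integral_indicator measurableSet_Ioo]
  congr 1
  ext s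
  unfold Psi
  by_cases h : s ∈ Ioo (0 : ℝ) x
  · rw [indicator_of_mem h]
    split_ifs <;> simp
  · rw [indicator_of_notMem h]
    split_ifs with h1
    · have h2 : s ≤ 0 := by
        by_contra hcon
        exact h ⟨not_le.mp hcon, h1.trans htx⟩
      rw [hg0 s h2]
      simp
    · simp

theorem Psi_eq (g : ℝ → ℂ) (x s t : ℝ) (htx : t < x) :
    Psi g x t s = if s < t then ((kap x s t * (2 * Real.exp (2 * s)) : ℝ) : ℂ) * g s else 0 := by
  unfold Psi
  split_ifs with h
  · rw [← kap_ak x s t h htx]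
    push_cast
    ring
  · rfl

theorem Psi_meas (g : ℝ → ℂ) (hg : Continuous g) (x : ℝ) :
    Measurable (fun p : ℝ × ℝ => Psi g x p.1 p.2) := by
  unfold Psi
  apply Measurable.ite (measurableSet_lt measurable_snd measurable_fst)
  · unfold ak
    have h2 : Measurable (fun p : ℝ × ℝ => g p.2) := hg.measurable.comp measurable_snd
    fun_prop
  · exact measurable_const

theorem Psi_ind (g : ℝ → ℂ) (x s : ℝ) (hs : 0 < s) (t : ℝ) (ht : t ∈ Ioo (0 : ℝ) x) :
    Psi g x t s = (Ioo s x).indicator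
      (fun t => ((kap x s t * (2 * Real.exp (2 * s)) : ℝ) : ℂ) * g s) t := by
  rw [Psi_eq g x s t ht.2]
  by_cases h : s < t
  · rw [if_pos h, indicator_of_mem (show t ∈ Ioo s x from ⟨h, ht.2⟩)]
  · rw [if_neg h, indicator_of_notMem (fun hh => h hh.1)]

theorem Psi_sec (g : ℝ → ℂ) (x s : ℝ) (hs : s ∈ Ioo (0 : ℝ) x) :
    IntegrableOn (fun t => Psi g x t s) (Ioo 0 x) := by
  have h1 : IntegrableOn (fun t => ((kap x s t * (2 * Real.exp (2 * s)) : ℝ) : ℂ) * g s)
      (Ioo s x) := by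
    have h2 : IntegrableOn (kap x s) (Ioo s x) := (kap_int x s).mono_set Ioo_subset_Ioc_self
    exact ((h2.mul_const _).ofReal).mul_const _
  have h3 : IntegrableOn ((Ioo s x).indicator
      (fun t => ((kap x s t * (2 * Real.exp (2 * s)) : ℝ) : ℂ) * g s)) (Ioo 0 x) :=
    (h1.integrable_indicator measurableSet_Ioo).integrableOn
  exact h3.congr_fun (fun t ht => (Psi_ind g x s hs.1 t ht).symm) measurableSet_Ioo

theorem Psi_right (g : ℝ → ℂ) (x s : ℝ) (hs : s ∈ Ioo (0 : ℝ) x) :
    ∫ t in Ioo (0 : ℝ) x, Psi g x t s =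
      ((Real.pi * (2 * Real.exp (2 * s)) : ℝ) : ℂ) * g s := by
  rw [setIntegral_congr_fun measurableSet_Ioo (fun t ht => Psi_ind g x s hs.1 t ht),
    setIntegral_indicator measurableSet_Ioo]
  have h1 : Ioo 0 x ∩ Ioo s x = Ioo s x := by
    apply inter_eq_right.mpr
    exact Ioo_subset_Ioo_left hs.1.le
  rw [h1, integral_mul_const]
  congr 1
  have h2 : ∫ t in Ioo s x, ((kap x s t * (2 * Real.exp (2 * s)) : ℝ) : ℂ) =
      ((∫ t in Ioo s x, kap x s t * (2 * Real.exp (2 * s)) : ℝ) : ℂ) := integral_ofReal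
  rw [h2, integral_mul_const, ← integral_Ioc_eq_integral_Ioo, kap_integral x s hs.2]

theorem Psi_norm (g : ℝ → ℂ) (x s : ℝ) (hs : s ∈ Ioo (0 : ℝ) x) :
    ∫ t in Ioo (0 : ℝ) x, ‖Psi g x t s‖ = Real.pi * (2 * Real.exp (2 * s)) * ‖g s‖ := by
  have h0 : ∀ t ∈ Ioo (0 : ℝ) x, ‖Psi g x t s‖ = (Ioo s x).indicator
      (fun t => kap x s t * (2 * Real.exp (2 * s)) * ‖g s‖) t := by
    intro t ht
    rw [Psi_ind g x s hs.1 t ht]
    by_cases h : t ∈ Ioo s x
    · rw [indicator_of_mem h, indicator_of_mem h, norm_mul, Complex.norm_real,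
        Real.norm_of_nonneg (mul_nonneg (kap_nonneg x s t) (by positivity))]
    · rw [indicator_of_notMem h, indicator_of_notMem h, norm_zero]
  rw [setIntegral_congr_fun measurableSet_Ioo h0, setIntegral_indicator measurableSet_Ioo]
  have h1 : Ioo 0 x ∩ Ioo s x = Ioo s x := by
    apply inter_eq_right.mpr
    exact Ioo_subset_Ioo_left hs.1.le
  rw [h1, integral_mul_const, integral_mul_const, ← integral_Ioc_eq_integral_Ioo,
    kap_integral x s hs.2]

theorem Psi_integrable (g : ℝ → ℂ) (hg : Continuous g) (x : ℝ) :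
    Integrable (fun p : ℝ × ℝ => Psi g x p.1 p.2)
      ((volume.restrict (Ioo (0 : ℝ) x)).prod (volume.restrict (Ioo (0 : ℝ) x))) := by
  rw [integrable_prod_iff' (Psi_meas g hg x).aestronglyMeasurable]
  constructor
  · filter_upwards [ae_restrict_mem measurableSet_Ioo] with s hs
    exact Psi_sec g x s hs
  · have h1 : IntegrableOn (fun s => Real.pi * (2 * Real.exp (2 * s)) * ‖g s‖) (Ioo 0 x) := by
      have h2 : Continuous (fun s : ℝ => Real.pi * (2 * Real.exp (2 * s)) * ‖g s‖) := by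
        fun_prop
      exact (h2.integrableOn_Icc).mono_set Ioo_subset_Icc_self
    exact h1.congr_fun (fun s hs => (Psi_norm g x s hs).symm) measurableSet_Ioo

theorem abel_id (g : ℝ → ℂ) (hg : Continuous g) (hg0 : ∀ t ≤ 0, g t = 0) (x : ℝ)
    (hJ : ∀ t < x, JJ g t = 0) :
    ∫ s in Ioo (0 : ℝ) x, ((Real.pi * (2 * Real.exp (2 * s)) : ℝ) : ℂ) * g s = 0 := by
  have h1 := integral_integral_swap (f := fun t s => Psi g x t s) (Psi_integrable g hg x)
  rw [← setIntegral_congr_fun measurableSet_Ioo (fun s hs => Psi_right g x s hs), ← h1]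
  rw [setIntegral_congr_fun (g := fun _ => (0 : ℂ)) measurableSet_Ioo (fun t ht => by
    rw [Psi_left g hg0 x t ht.2, hJ t ht.2, mul_zero])]
  simp

theorem th : S_ABEL := by
  intro g hg hg0 t1 hJ t ht
  rcases le_or_gt t 0 with h0 | h0
  · exact hg0 t h0
  · let c : ℝ → ℂ := fun s => ((Real.pi * (2 * Real.exp (2 * s)) : ℝ) : ℂ) * g s
    have hc : Continuous c := by
      have : Continuous (fun s : ℝ => ((Real.pi * (2 * Real.exp (2 * s)) : ℝ) : ℂ)) := by
        fun_prop
      exact this.mul hg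
    have h1 : HasDerivAt (fun u => ∫ s in (0 : ℝ)..u, c s) (c t) t :=
      intervalIntegral.integral_hasDerivAt_right (hc.intervalIntegrable _ _)
        (hc.stronglyMeasurableAtFilter _ _) hc.continuousAt
    have h2 : (fun u => ∫ s in (0 : ℝ)..u, c s) =ᶠ[𝓝 t] fun _ => 0 := by
      filter_upwards [Ioo_mem_nhds h0 ht] with u hu
      rw [intervalIntegral.integral_of_le hu.1.le, integral_Ioc_eq_integral_Ioo]
      exact abel_id g hg hg0 u (fun s hs => hJ s (hs.trans hu.2))
    have h3 : HasDerivAt (fun u => ∫ s in (0 : ℝ)..u, c s) 0 t :=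
      (hasDerivAt_const t (0 : ℂ)).congr_of_eventuallyEq h2
    have h4 : c t = 0 := h1.unique h3
    rcases mul_eq_zero.mp h4 with h5 | h5
    · exfalso
      have h6 : Real.pi * (2 * Real.exp (2 * t)) ≠ 0 := by positivity
      exact h6 (by exact_mod_cast h5)
    · exact h5

end Pool.Agent.W991.UN
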